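import Pool.Agent.H551R3.CDTwo

set_option autoImplicit false

namespace Pool.Agent.Results.MP_68720f_al.NotLocallyAdmissible

open Pool.Agent.H551R3.CD

universe u

/-- Over every infinite field, for every `n ≥ 4` and all parameters, the Cayley-Dickson algebra
`A_n` is simple and the variety it generates is not locally admissible. -/
theorem result (F : Type u) [Field F] [Infinite F] (α : F) (hα : 1 + 4 * α ≠ 0) (γ : ℕ → F)
    (hγ : ∀ k, γ k ≠ 0) (n : ℕ) (hn : 4 ≤ n) :
    IsSimpleAlg F (cayleyDickson α γ n).carrier ∧
      ¬ VarLocallyAdmissible F (cayleyDickson α γ n).carrier := by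
  refine ⟨simple_CD α hα γ hγ n (by omega), ?_⟩
  intro h
  obtain ⟨k, rfl⟩ := Nat.exists_eq_add_of_le hn
  rw [Nat.add_comm] at h
  let φ : F →+* AlgebraicClosure F := algebraMap F (AlgebraicClosure F)
  have hp : HasPair (cayleyDickson (φ α) (fun k => φ (γ k)) (k + 4)) := by
    refine hasPair_algClosed (φ α) ?_ (fun k => φ (γ k)) ?_ k
    · intro h0
      apply hα
      apply φ.injective
      rw [map_zero, map_add, map_mul, map_one, map_ofNat]
      exact h0
    · intro j h0
      exact hγ j ((map_eq_zero φ).mp h0)
  exact two_not_locallyNilpotent (h (Two F) (two_inVar φ α γ (k + 4) hp) Two.anti)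

end Pool.Agent.Results.MP_68720f_al.NotLocallyAdmissible
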